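import Pool.Agent.Helper24.AN.Graded

/-!
# F-anti-nilpotency is `m`-adically stable

Local cohomology `H^i_m(A)` of a local ring `(A, m)` is computed by the Čech complex of a finite
sequence `a = (a_1, …, a_n)` of elements of `A` which generates an ideal with radical `m`, and the
Frobenius action on `H^i_m(A)` is induced by the Frobenius maps `z ↦ z ^ p` of the localizations
`A_{a_σ}`.

Authors: helper24, helper78, helper70, helper85, helper79, helper5, helper14 (Čech complexes, Artinian modules: library of
`FFullStable`).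

Proof. Let `H` be the total local cohomology of `R`, an Artinian module, `F` its Frobenius action, and
`G_y = y ^ (p - 1) F` on the annihilator `H_y` of `y`, which is the local cohomology of `R / (y)` if `y` is surjective on `H`.
Suppose that `R / (x)` is F-anti-nilpotent and that there are `δ_t ∈ m ^ t` and `G_y`-stable submodules `N_t < N_t⁺` of `H_y`,
`y = x + δ_t`, with `G_y(N_t⁺) ⊆ N_t`. Let `N_0`, `N_0⁺` be the limits of these submodules along an ultrafilter; they are equal
since `R / (x)` is F-anti-nilpotent. (1) Rigidity: `N_t` and `N_0` have the same elements killed by `m ^ k`, for every `k` and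
almost all `t`: otherwise the sequence `(N_t)` defines a nonzero stable submodule `N` of the ultrapower of `H_x / N_0` without
nonzero constant elements. The field of definition `K` of a part of `N` over a coefficient field `κ` satisfies `K = κ K ^ p`,
because `N` can be replaced by a submodule generated by its image under Frobenius, and is finitely generated, so it is
algebraic over `κ`, so it is equal to `κ`. (2) A dual Artin-Rees theorem and a bound for the growth of `N_0` under Frobenius
(both consequences of the Artinian property of graded modules over `R[Y_1, …, Y_d]`) show that `N_t` and `N_t⁺` are equal if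
they have the same elements killed by `m ^ k`, for a number `k` which depends only on `N_0`.
-/

open IsLocalRing

namespace Pool.Agent.Results.MP_c591d8_ag.AntiNilpotentStable

universe u

variable {A : Type u} [CommRing A] {n : ℕ}

/-- The localization `A_{a_σ}` of `A` at the product `a_σ = ∏_{j ∈ σ} a_j`. -/
def CechLoc (a : Fin n → A) (σ : Finset (Fin n)) : Type u := Localization.Away (∏ j ∈ σ, a j)

/-- the ring structure of the localization -/
noncomputable instance instRing (a : Fin n → A) (σ : Finset (Fin n)) : CommRing (CechLoc a σ) :=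
  OreLocalization.instCommRing (S := Submonoid.powers (∏ j ∈ σ, a j))

/-- the `A`-algebra structure of the localization -/
noncomputable instance instAlg (a : Fin n → A) (σ : Finset (Fin n)) : Algebra A (CechLoc a σ) :=
  OreLocalization.instAlgebra (S := Submonoid.powers (∏ j ∈ σ, a j))

theorem isUnit_cech (a : Fin n → A) {τ σ : Finset (Fin n)} (h : τ ⊆ σ) :
    IsUnit (algebraMap A (CechLoc a σ) (∏ j ∈ τ, a j)) :=
  isUnit_of_dvd_unit (map_dvd _ (Finset.prod_dvd_prod_of_subset _ _ _ h))
    (IsLocalization.Away.algebraMap_isUnit (S := Localization.Away (∏ j ∈ σ, a j)) (∏ j ∈ σ, a j))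

/-- The canonical ring homomorphism `A_{a_τ} → A_{a_σ}` for `τ ⊆ σ`. -/
noncomputable def cechRes (a : Fin n → A) {τ σ : Finset (Fin n)} (h : τ ⊆ σ) :
    CechLoc a τ →+* CechLoc a σ :=
  IsLocalization.Away.lift (S := Localization.Away (∏ j ∈ τ, a j)) (∏ j ∈ τ, a j) (isUnit_cech a h)

/-- The Čech cochains of all degrees together: families `(z_σ)` with `z_σ ∈ A_{a_σ}`, indexed by
the subsets `σ` of `{1, …, n}`. -/
def CechCochain (a : Fin n → A) : Type u := (σ : Finset (Fin n)) → CechLoc a σ

/-- componentwise addition of cochains -/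
noncomputable instance instAdd (a : Fin n → A) : AddCommGroup (CechCochain a) :=
  Pi.addCommGroup (f := fun σ => CechLoc a σ)

/-- componentwise scalar multiplication of cochains -/
noncomputable instance instMod (a : Fin n → A) : Module A (CechCochain a) :=
  Pi.module (Finset (Fin n)) (fun σ => CechLoc a σ) A

theorem deg_add (a : Fin n → A) (i : ℕ) {z w : CechCochain a}
    (hz : ∀ σ : Finset (Fin n), σ.card ≠ i → z σ = 0)
    (hw : ∀ σ : Finset (Fin n), σ.card ≠ i → w σ = 0) :
    ∀ σ : Finset (Fin n), σ.card ≠ i → (z + w) σ = 0 := fun σ h =>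
  show z σ + w σ = 0 by rw [hz σ h, hw σ h, add_zero]

theorem deg_zero (a : Fin n → A) (i : ℕ) :
    ∀ σ : Finset (Fin n), σ.card ≠ i → (0 : CechCochain a) σ = 0 := fun _ _ => rfl

theorem deg_smul (a : Fin n → A) (i : ℕ) (r : A) {z : CechCochain a}
    (hz : ∀ σ : Finset (Fin n), σ.card ≠ i → z σ = 0) :
    ∀ σ : Finset (Fin n), σ.card ≠ i → (r • z) σ = 0 := fun σ h =>
  show r • z σ = 0 by rw [hz σ h, smul_zero]

/-- The cochains of degree `i`, that is `C^i = ⊕_{|σ| = i} A_{a_σ}`: the families supported on the
subsets with `i` elements. -/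
def cechDegree (a : Fin n → A) (i : ℕ) : Submodule A (CechCochain a) where
  carrier := {z | ∀ σ : Finset (Fin n), σ.card ≠ i → z σ = 0}
  add_mem' := deg_add a i
  zero_mem' := deg_zero a i
  smul_mem' := deg_smul a i

/-- The `j`-th term `(-1)^{#{i ∈ σ : i < j}} · (image of z_{σ ∖ {j}} in A_{a_σ})` of the
Čech differential. -/
noncomputable def cechTerm (a : Fin n → A) (z : CechCochain a) (σ : Finset (Fin n))
    (j : Fin n) : CechLoc a σ :=
  (-1) ^ (σ.filter (· < j)).card * cechRes a (σ.erase_subset j) (z (σ.erase j))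

/-- The Čech differential `(d z)_σ = ∑_{j ∈ σ} (-1)^{#{i ∈ σ : i < j}} · (image of z_{σ ∖ {j}} in
A_{a_σ})` as a function. -/
noncomputable def cechDFun (a : Fin n → A) (z : CechCochain a) : CechCochain a :=
  fun σ => ∑ j ∈ σ, cechTerm a z σ j

theorem cechDFun_add (a : Fin n → A) (z w : CechCochain a) :
    cechDFun a (z + w) = cechDFun a z + cechDFun a w :=
  (Pool.Agent.Helper14.FFull.Graded.cechD a).map_add z w

theorem cechDFun_smul (a : Fin n → A) (r : A) (z : CechCochain a) :
    cechDFun a (r • z) = r • cechDFun a z :=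
  (Pool.Agent.Helper14.FFull.Graded.cechD a).map_smul r z

/-- The Čech differential `d`, an `A`-linear map. -/
noncomputable def cechD (a : Fin n → A) : CechCochain a →ₗ[A] CechCochain a where
  toFun := cechDFun a
  map_add' := cechDFun_add a
  map_smul' := cechDFun_smul a

/-- The Čech cocycles of degree `i`. -/
noncomputable def cocycles (a : Fin n → A) (i : ℕ) : Submodule A (CechCochain a) :=
  cechDegree a i ⊓ LinearMap.ker (cechD a)

/-- The Čech coboundaries of degree `i`: the image of the cochains of degree `i - 1`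
(and `0` if `i = 0`). -/
noncomputable def coboundaries (a : Fin n → A) : ℕ → Submodule A (CechCochain a)
  | 0 => ⊥
  | i + 1 => (cechDegree a i).map (cechD a)

/-- The `i`-th Čech cohomology module of the sequence `a`; it is `H^i_m(A)` if `a` generates an
ideal with radical `m` and `A` is Noetherian. -/
def CechCohomology (a : Fin n → A) (i : ℕ) : Type u :=
  (cocycles a i) ⧸ (coboundaries a i).submoduleOf (cocycles a i)

/-- the additive structure of the cohomology -/
noncomputable instance instCohAdd (a : Fin n → A) (i : ℕ) : AddCommGroup (CechCohomology a i) :=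
  Submodule.Quotient.addCommGroup ((coboundaries a i).submoduleOf (cocycles a i))

/-- the `A`-module structure of the cohomology -/
noncomputable instance instCohMod (a : Fin n → A) (i : ℕ) : Module A (CechCohomology a i) :=
  Submodule.Quotient.module ((coboundaries a i).submoduleOf (cocycles a i))

/-- the cohomology class of a cocycle -/
noncomputable def cohClass (a : Fin n → A) (i : ℕ) (z : cocycles a i) : CechCohomology a i :=
  Submodule.Quotient.mk z

/-- `θ = F(η)` for the Frobenius action `F` on the `i`-th cohomology module: `F` sends the class of a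
cocycle `z = (z_σ)` to the class of `z ^ p = (z_σ ^ p)`. -/
def IsFrobenius (p : ℕ) (a : Fin n → A) (i : ℕ) (η θ : CechCohomology a i) : Prop :=
  ∃ z w : cocycles a i, (∀ σ, w.1 σ = z.1 σ ^ p) ∧ η = cohClass a i z ∧ θ = cohClass a i w

/-- `A` is a local ring and is F-anti-nilpotent: for every `i` and every submodule `N` of `H^i_m(A)`
with `F(N) ⊆ N`, the induced action of `F` on `H^i_m(A) / N` is injective. -/
def IsFAntiNilpotent (p : ℕ) (A : Type u) [CommRing A] : Prop :=
  ∃ _ : IsLocalRing A, ∀ (n : ℕ) (a : Fin n → A),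
    (Ideal.span (Set.range a)).radical = maximalIdeal A →
      ∀ (i : ℕ) (N : Submodule A (CechCohomology a i)),
        (∀ η θ, IsFrobenius p a i η θ → η ∈ N → θ ∈ N) →
          ∀ η θ η' θ', IsFrobenius p a i η θ → IsFrobenius p a i η' θ' → θ - θ' ∈ N → η - η' ∈ N

theorem isAN_of_isFAntiNilpotent {p : ℕ} (hp : p ≠ 0) {A : Type u} [CommRing A]
    (h : IsFAntiNilpotent p A) : Pool.Agent.Helper24.AN.IsAN p A := by
  obtain ⟨h0, h⟩ := h
  refine ⟨h0, fun n a ha i N hN z w hzw hw => ?_⟩
  have h1 : IsFrobenius p a i 0 0 :=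
    ⟨0, 0, fun σ => (zero_pow hp).symm, rfl, rfl⟩
  have h2 := h n a ha i N (by
    rintro _ _ ⟨z, w, hzw, rfl, rfl⟩ hz
    exact hN z w hzw hz) (cohClass a i z) (cohClass a i w) 0 0 ⟨z, w, hzw, rfl, rfl⟩ h1 (by
      rw [sub_zero]; exact hw)
  rw [sub_zero] at h2
  exact h2

theorem isFAntiNilpotent_of_isAN (p : ℕ) [Fact p.Prime] {A : Type u} [CommRing A] [CharP A p]
    (h : Pool.Agent.Helper24.AN.IsAN p A) : IsFAntiNilpotent p A := by
  obtain ⟨h0, h⟩ := h
  refine ⟨h0, fun n a ha i N hN η θ η' θ' => ?_⟩
  rintro ⟨z, w, hzw, rfl, rfl⟩ ⟨z', w', hzw', rfl, rfl⟩ hθ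
  have h1 := h n a ha i N (by
    intro z w hzw hz
    exact hN (cohClass a i z) (cohClass a i w) ⟨z, w, hzw, rfl, rfl⟩ hz) (z - z') (w - w') (by
      intro σ
      have h2 : (z.1 σ) ^ p = (z.1 σ - z'.1 σ) ^ p + (z'.1 σ) ^ p := by
        rw [← Pool.Agent.Helper14.FFull.add_pow_p (R := A) p (z.1 σ - z'.1 σ) (z'.1 σ), sub_add_cancel]
      change w.1 σ - w'.1 σ = (z.1 σ - z'.1 σ) ^ p
      rw [hzw, hzw', h2, add_sub_cancel_right]) hθ
  exact h1

/-- **F-anti-nilpotency is `m`-adically stable.** -/
theorem result (p : ℕ) (hp : p.Prime) (R : Type u) [CommRing R] [IsNoetherianRing R]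
    [IsLocalRing R] [CharP R p] (x : R) (hxm : x ∈ maximalIdeal R) (hx : x ∈ nonZeroDivisors R)
    (h : IsFAntiNilpotent p (R ⧸ Ideal.span {x})) :
    ∃ N : ℕ, ∀ δ ∈ maximalIdeal R ^ N, IsFAntiNilpotent p (R ⧸ Ideal.span {x + δ}) := by
  have : Fact p.Prime := ⟨hp⟩
  obtain ⟨N, hN⟩ := Pool.Agent.Helper24.AN.main p hp R x hxm hx (isAN_of_isFAntiNilpotent hp.ne_zero h)
  refine ⟨N, fun δ hδ => ?_⟩
  have h1 := hN δ hδ
  obtain ⟨h2, _⟩ := id h1
  have h3 : ((p : ℕ) : R ⧸ Ideal.span {x + δ}) = 0 := by
    rw [← map_natCast (Ideal.Quotient.mk (Ideal.span {x + δ})), CharP.cast_eq_zero, map_zero]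
  have : CharP (R ⧸ Ideal.span {x + δ}) p := (CharP.charP_iff_prime_eq_zero hp).mpr h3
  exact isFAntiNilpotent_of_isAN p h1

end Pool.Agent.Results.MP_c591d8_ag.AntiNilpotentStable
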