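import Pool.Agent.Helper14.FFull.Graded

/-!
# F-fullness is `m`-adically stable

Local cohomology `H^i_m(A)` of a local ring `(A, m)` is computed by the Čech complex of a finite
sequence `a = (a_1, …, a_n)` of elements of `A` which generates an ideal with radical `m`, and the
Frobenius action on `H^i_m(A)` is induced by the Frobenius maps `z ↦ z ^ p` of the localizations
`A_{a_σ}`.
-/

open IsLocalRing

namespace Pool.Agent.Results.MP_c591d8_ag.FFullStable

universe u

variable {A : Type u} [CommRing A] {n : ℕ}

/-- The localization `A_{a_σ}` of `A` at the product `a_σ = ∏_{j ∈ σ} a_j`. -/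
def CechLoc (a : Fin n → A) (σ : Finset (Fin n)) : Type u := Localization.Away (∏ j ∈ σ, a j)

/-- the ring structure of the localization -/
noncomputable instance instRing (a : Fin n → A) (σ : Finset (Fin n)) : CommRing (CechLoc a σ) :=
  OreLocalization.instCommRing (S := Submonoid.powers (∏ j ∈ σ, a j))

/-- the `A`-algebra structure of the localization -/
noncomputable instance instAlg (a : Fin n → A) (σ : Finset (Fin n)) : Algebra A (CechLoc a σ) :=
  OreLocalization.instAlgebra (S := Submonoid.powers (∏ j ∈ σ, a j))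

theorem isUnit_cech (a : Fin n → A) {τ σ : Finset (Fin n)} (h : τ ⊆ σ) :
    IsUnit (algebraMap A (CechLoc a σ) (∏ j ∈ τ, a j)) :=
  isUnit_of_dvd_unit (map_dvd _ (Finset.prod_dvd_prod_of_subset _ _ _ h))
    (IsLocalization.Away.algebraMap_isUnit (S := Localization.Away (∏ j ∈ σ, a j)) (∏ j ∈ σ, a j))

/-- The canonical ring homomorphism `A_{a_τ} → A_{a_σ}` for `τ ⊆ σ`. -/
noncomputable def cechRes (a : Fin n → A) {τ σ : Finset (Fin n)} (h : τ ⊆ σ) :
    CechLoc a τ →+* CechLoc a σ :=
  IsLocalization.Away.lift (S := Localization.Away (∏ j ∈ τ, a j)) (∏ j ∈ τ, a j) (isUnit_cech a h)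

/-- The Čech cochains of all degrees together: families `(z_σ)` with `z_σ ∈ A_{a_σ}`, indexed by
the subsets `σ` of `{1, …, n}`. -/
def CechCochain (a : Fin n → A) : Type u := (σ : Finset (Fin n)) → CechLoc a σ

/-- componentwise addition of cochains -/
noncomputable instance instAdd (a : Fin n → A) : AddCommGroup (CechCochain a) :=
  Pi.addCommGroup (f := fun σ => CechLoc a σ)

/-- componentwise scalar multiplication of cochains -/
noncomputable instance instMod (a : Fin n → A) : Module A (CechCochain a) :=
  Pi.module (Finset (Fin n)) (fun σ => CechLoc a σ) A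

theorem deg_add (a : Fin n → A) (i : ℕ) {z w : CechCochain a}
    (hz : ∀ σ : Finset (Fin n), σ.card ≠ i → z σ = 0)
    (hw : ∀ σ : Finset (Fin n), σ.card ≠ i → w σ = 0) :
    ∀ σ : Finset (Fin n), σ.card ≠ i → (z + w) σ = 0 := fun σ h =>
  show z σ + w σ = 0 by rw [hz σ h, hw σ h, add_zero]

theorem deg_zero (a : Fin n → A) (i : ℕ) :
    ∀ σ : Finset (Fin n), σ.card ≠ i → (0 : CechCochain a) σ = 0 := fun _ _ => rfl

theorem deg_smul (a : Fin n → A) (i : ℕ) (r : A) {z : CechCochain a}
    (hz : ∀ σ : Finset (Fin n), σ.card ≠ i → z σ = 0) :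
    ∀ σ : Finset (Fin n), σ.card ≠ i → (r • z) σ = 0 := fun σ h =>
  show r • z σ = 0 by rw [hz σ h, smul_zero]

/-- The cochains of degree `i`, that is `C^i = ⊕_{|σ| = i} A_{a_σ}`: the families supported on the
subsets with `i` elements. -/
def cechDegree (a : Fin n → A) (i : ℕ) : Submodule A (CechCochain a) where
  carrier := {z | ∀ σ : Finset (Fin n), σ.card ≠ i → z σ = 0}
  add_mem' := deg_add a i
  zero_mem' := deg_zero a i
  smul_mem' := deg_smul a i

/-- The `j`-th term `(-1)^{#{i ∈ σ : i < j}} · (image of z_{σ ∖ {j}} in A_{a_σ})` of the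
Čech differential. -/
noncomputable def cechTerm (a : Fin n → A) (z : CechCochain a) (σ : Finset (Fin n))
    (j : Fin n) : CechLoc a σ :=
  (-1) ^ (σ.filter (· < j)).card * cechRes a (σ.erase_subset j) (z (σ.erase j))

/-- The Čech differential `(d z)_σ = ∑_{j ∈ σ} (-1)^{#{i ∈ σ : i < j}} · (image of z_{σ ∖ {j}} in
A_{a_σ})` as a function. -/
noncomputable def cechDFun (a : Fin n → A) (z : CechCochain a) : CechCochain a :=
  fun σ => ∑ j ∈ σ, cechTerm a z σ j

theorem cechDFun_add (a : Fin n → A) (z w : CechCochain a) :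
    cechDFun a (z + w) = cechDFun a z + cechDFun a w :=
  (Pool.Agent.Helper14.FFull.Graded.cechD a).map_add z w

theorem cechDFun_smul (a : Fin n → A) (r : A) (z : CechCochain a) :
    cechDFun a (r • z) = r • cechDFun a z :=
  (Pool.Agent.Helper14.FFull.Graded.cechD a).map_smul r z

/-- The Čech differential `d`, an `A`-linear map. -/
noncomputable def cechD (a : Fin n → A) : CechCochain a →ₗ[A] CechCochain a where
  toFun := cechDFun a
  map_add' := cechDFun_add a
  map_smul' := cechDFun_smul a

/-- The Čech cocycles of degree `i`. -/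
noncomputable def cocycles (a : Fin n → A) (i : ℕ) : Submodule A (CechCochain a) :=
  cechDegree a i ⊓ LinearMap.ker (cechD a)

/-- The Čech coboundaries of degree `i`: the image of the cochains of degree `i - 1`
(and `0` if `i = 0`). -/
noncomputable def coboundaries (a : Fin n → A) : ℕ → Submodule A (CechCochain a)
  | 0 => ⊥
  | i + 1 => (cechDegree a i).map (cechD a)

/-- The `i`-th Čech cohomology module of the sequence `a`; it is `H^i_m(A)` if `a` generates an
ideal with radical `m` and `A` is Noetherian. -/
def CechCohomology (a : Fin n → A) (i : ℕ) : Type u :=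
  (cocycles a i) ⧸ (coboundaries a i).submoduleOf (cocycles a i)

/-- the additive structure of the cohomology -/
noncomputable instance instCohAdd (a : Fin n → A) (i : ℕ) : AddCommGroup (CechCohomology a i) :=
  Submodule.Quotient.addCommGroup ((coboundaries a i).submoduleOf (cocycles a i))

/-- the `A`-module structure of the cohomology -/
noncomputable instance instCohMod (a : Fin n → A) (i : ℕ) : Module A (CechCohomology a i) :=
  Submodule.Quotient.module ((coboundaries a i).submoduleOf (cocycles a i))

/-- the cohomology class of a cocycle -/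
noncomputable def cohClass (a : Fin n → A) (i : ℕ) (z : cocycles a i) : CechCohomology a i :=
  Submodule.Quotient.mk z

/-- The image of the Frobenius action `F` on the `i`-th cohomology module, where `F` sends the
class of a cocycle `z = (z_σ)` to the class of `z ^ p = (z_σ ^ p)`. -/
def frobeniusImage (p : ℕ) (a : Fin n → A) (i : ℕ) : Set (CechCohomology a i) :=
  {η | ∃ z w : cocycles a i, (∀ σ, w.1 σ = z.1 σ ^ p) ∧ η = cohClass a i w}

/-- `A` is a local ring and is F-full: for every `i`, the `A`-module `H^i_m(A)` is generated by the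
image of the Frobenius action. -/
def IsFFull (p : ℕ) (A : Type u) [CommRing A] : Prop :=
  ∃ _ : IsLocalRing A, ∀ (n : ℕ) (a : Fin n → A),
    (Ideal.span (Set.range a)).radical = maximalIdeal A →
      ∀ i : ℕ, Submodule.span A (frobeniusImage p a i) = ⊤

theorem isFFull_iff (p : ℕ) (A : Type u) [CommRing A] :
    IsFFull p A ↔ Pool.Agent.Helper14.FFull.Graded.IsFFull p A := Iff.rfl

/-- **F-fullness is `m`-adically stable.** -/
theorem result (p : ℕ) (hp : p.Prime) (R : Type u) [CommRing R] [IsNoetherianRing R]
    [IsLocalRing R] [CharP R p] (x : R) (hxm : x ∈ maximalIdeal R) (hx : x ∈ nonZeroDivisors R)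
    (hfull : IsFFull p (R ⧸ Ideal.span {x})) :
    ∃ N : ℕ, ∀ δ ∈ maximalIdeal R ^ N, IsFFull p (R ⧸ Ideal.span {x + δ}) :=
  Pool.Agent.Helper14.FFull.Graded.main p hp R x hxm hx hfull

end Pool.Agent.Results.MP_c591d8_ag.FFullStable
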